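import Mathlib
import Pool.Agent.Run7.h528.SmallSuf

/-!
# MP_e0d3d5_al: all pairs with class sizes at most `p ^ 2`
-/

set_option autoImplicit false

open scoped BigOperators

namespace Pool.Agent.Results.MP_e0d3d5_al.ClassesUpToPSquared

open Run7.h528

/-- Let `α` and `β` be finite sets of exponents that contain `0`, with `β ⊆ {0, 1, 2}`, and let `M`
be the largest element of `α`. There is a finite `p`-group with the character degrees `p ^ x`,
`x ∈ α`, and the class sizes `p ^ y`, `y ∈ β`, if and only if `α` and `β` both have one element, or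
both have two elements, or `β = {0, 1, 2}`, `2 ≤ |α| ≤ p + 2` and the sum of the gaps `M - x`,
`x ∈ α`, `x ≠ 0`, is at most `M`. -/
theorem result (p : ℕ) (hp : p.Prime) (α β : Finset ℕ) (hα0 : 0 ∈ α) (hβ0 : 0 ∈ β)
    (hβ : ∀ y ∈ β, y ≤ 2) (M : ℕ) (hM : M ∈ α) (hα : ∀ x ∈ α, x ≤ M) :
    Realizable p α β ↔
      (α.card = 1 ∧ β.card = 1) ∨ (α.card = 2 ∧ β.card = 2) ∨
        (β.card = 3 ∧ 2 ≤ α.card ∧ α.card ≤ p + 2 ∧ ∑ x ∈ α.erase 0, (M - x) ≤ M) := by
  haveI : Fact p.Prime := ⟨hp⟩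
  exact small hβ hβ0 hα0 hM hα

end Pool.Agent.Results.MP_e0d3d5_al.ClassesUpToPSquared
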