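import Mathlib
import Pool.Agent.Run7.h528.Multi

/-!
# MP_e0d3d5_al: degrees in clusters, with a class of size `p ^ (b - 1)`
-/

set_option autoImplicit false

open scoped BigOperators

namespace Pool.Agent.Results.MP_e0d3d5_al.Clusters

open Run7.h528

/-- Let `β` be a finite set of exponents with largest element `b` that contains `0` and `b - 1`.
Let the nonzero elements of `α` be divided into the nonempty sets `C 0, …, C k` such that every
element of a later set is more than `b` times the maximum `M i` of each earlier set `C i`, and such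
that the sum of the gaps `M i - x`, `x ∈ C i`, plus `b ^ 2 * (p ^ b - 1) / (p - 1)` is at
most `M 0`. Then there is a finite `p`-group with the character degrees `p ^ x`, `x ∈ α`, and the
class sizes `p ^ y`, `y ∈ β`, if and only if `β` contains a chain `b = κ 0 > … > κ (k + 1) = 0`
with `(p - 1) * |C i| + p ^ (b - κ i) ≤ p ^ (b - κ (i + 1))` for all `i`. -/
theorem result (p : ℕ) (hp : p.Prime) (b : ℕ) (hb : 1 ≤ b) (β : Finset ℕ)
    (hβ : ∀ y ∈ β, y ≤ b) (hβ0 : 0 ∈ β) (hβ1 : b - 1 ∈ β) (hβb : b ∈ β)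
    (k : ℕ) (C : Fin (k + 1) → Finset ℕ) (M : Fin (k + 1) → ℕ)
    (hM : ∀ i, M i ∈ C i) (hC : ∀ i, ∀ x ∈ C i, x ≤ M i)
    (hgap : ∀ i j, i < j → ∀ x ∈ C j, b * M i < x)
    (hsum : ∑ i, ∑ x ∈ C i, (M i - x) + b ^ 2 * ((p ^ b - 1) / (p - 1)) ≤ M 0)
    (α : Finset ℕ) (hα : ∀ x, x ∈ α ↔ x = 0 ∨ ∃ i, x ∈ C i) :
    Realizable p α β ↔
      ∃ κ : Fin (k + 2) → ℕ, κ 0 = b ∧ κ (Fin.last (k + 1)) = 0 ∧ StrictAnti κ ∧
        (∀ i, κ i ∈ β) ∧
        ∀ i : Fin (k + 1), (p - 1) * (C i).card + p ^ (b - κ i.castSucc) ≤ p ^ (b - κ i.succ) := by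
  haveI : Fact p.Prime := ⟨hp⟩
  have h : α = insert 0 (Finset.univ.biUnion C) := by
    ext x
    rw [hα, Finset.mem_insert, Finset.mem_biUnion]
    simp
  rw [h]
  exact multi hb hβ hβ0 hβ1 hβb C M hM hC hgap hsum

end Pool.Agent.Results.MP_e0d3d5_al.Clusters
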