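import Mathlib
import Pool.Agent.Run7.h528.Lacun

/-!
# MP_e0d3d5_al: degrees that are far apart
-/

set_option autoImplicit false

namespace Pool.Agent.Results.MP_e0d3d5_al.Lacunary

open Run7.h528

/-- Let `β` be a finite set of exponents that contains `0` and has the largest element `b`, and
let `α` be a finite set of exponents that contains `0`, whose nonzero elements are at least `2 * b`
and such that `(b + 1) * x ≤ y` for all nonzero `x < y` in `α`. If `|β| + 1 ≤ 2 * |α|`, then there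
is a finite `p`-group with the character degrees `p ^ x`, `x ∈ α`, and the class sizes `p ^ y`,
`y ∈ β`, if and only if `|α| ≤ |β|`. -/
theorem result (p : ℕ) (hp : p.Prime) (b : ℕ) (α β : Finset ℕ)
    (hα0 : 0 ∈ α) (hβ0 : 0 ∈ β) (hbβ : b ∈ β) (hβ : ∀ y ∈ β, y ≤ b)
    (hα : ∀ x ∈ α, x ≠ 0 → 2 * b ≤ x)
    (hgap : ∀ x ∈ α, ∀ y ∈ α, x ≠ 0 → x < y → (b + 1) * x ≤ y)
    (hcard : β.card + 1 ≤ 2 * α.card) : Realizable p α β ↔ α.card ≤ β.card := by
  haveI : Fact p.Prime := ⟨hp⟩
  exact lac hα0 hβ0 hbβ hβ hα hgap hcard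

end Pool.Agent.Results.MP_e0d3d5_al.Lacunary
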